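import Pool.Agent.H221.TW.StmG

/-!
Project TW (helper221), S_planar: basic facts on a chain.
-/

set_option autoImplicit false

namespace Pool.Agent.H490.TW.PB

open Pool.Agent.H332.HT (V2 det)
open Pool.Agent.H221.TW (ChainG)

/-- hypotheses of S_planarG -/
structure Hyp (Q : Set V2) (th : ℕ → ℝ) (p : ℕ → V2) : Prop where
  cvx : Convex ℝ Q
  cpt : IsCompact Q
  int : (0 : V2) ∈ interior Q
  cen : ∀ x ∈ Q, -((1 / (31 / 10 : ℝ)) • x) ∈ Q
  ch : ChainG Q th p

/-- Plücker -/
lemma pluecker (a b c d : V2) : det a b * det c d - det a c * det b d + det a d * det b c = 0 := by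
  unfold det; ring

lemma three (a b c : V2) : det b c • a + det c a • b + det a b • c = 0 := by
  unfold det; ext <;> simp <;> ring

lemma det_self (a : V2) : det a a = 0 := by unfold det; ring

lemma det_swap (a b : V2) : det a b = -det b a := by unfold det; ring

/-- supporting functional at a boundary point -/
lemma supp {Q : Set V2} (hc : Convex ℝ Q) (h0 : (0 : V2) ∈ interior Q)
    (hcen : ∀ x ∈ Q, -((1 / (31 / 10 : ℝ)) • x) ∈ Q) {x : V2} (hx : x ∈ frontier Q) :
    ∃ f : V2 →ₗ[ℝ] ℝ, f x = 1 ∧ (∀ y ∈ Q, f y ≤ 1) ∧ ∀ y ∈ Q, -(31 / 10) ≤ f y := by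
  obtain ⟨g, hg⟩ := geometric_hahn_banach_open_point hc.interior isOpen_interior hx.2
  have hx0 : 0 < g x := by simpa using hg 0 h0
  have hle : ∀ y ∈ Q, g y ≤ g x := by
    intro y hy
    have hy' : y ∈ closure (interior Q) := by
      rw [hc.closure_interior_eq_closure_of_nonempty_interior ⟨0, h0⟩]
      exact subset_closure hy
    exact closure_minimal (fun z hz => (hg z hz).le : interior Q ⊆ {z | g z ≤ g x})
      (isClosed_le g.continuous continuous_const) hy'
  have h1 : ∀ y ∈ Q, (g y) / g x ≤ 1 := fun y hy => (div_le_one hx0).2 (hle y hy)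
  refine ⟨(1 / g x) • (g : V2 →ₗ[ℝ] ℝ), ?_, fun y hy => ?_, fun y hy => ?_⟩
  · simp [hx0.ne']
  · have := h1 y hy
    simpa [div_eq_inv_mul] using this
  · have := h1 _ (hcen y hy)
    rw [map_neg, map_smul, smul_eq_mul] at this
    simp only [LinearMap.smul_apply, ContinuousLinearMap.coe_coe, smul_eq_mul]
    have e : -(1 / (31 / 10) * g y) / g x = -(10 / 31) * (1 / g x * g y) := by ring
    rw [e] at this
    linarith

section
variable {Q : Set V2} {th : ℕ → ℝ} {p : ℕ → V2} (h : Hyp Q th p)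
include h

lemma memQ (i : ℕ) : p i ∈ Q := h.cpt.isClosed.frontier_subset (h.ch.fr i)

lemma lt_th {i j : ℕ} (hij : i < j) : th i < th j := h.ch.mono hij

lemma th_lt {i j : ℕ} (hij : j < i + 10) : th j < th i + 2 * Real.pi := by
  rw [← h.ch.per i]; exact h.ch.mono hij

lemma polar (i j : ℕ) : ∃ r s : ℝ, 0 < r ∧ 0 < s ∧ det (p i) (p j) = r * s * Real.sin (th j - th i) := by
  obtain ⟨r, hr, e1⟩ := h.ch.pol i
  obtain ⟨s, hs, e2⟩ := h.ch.pol j
  refine ⟨r, s, hr, hs, ?_⟩
  rw [e1, e2, Real.sin_sub]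
  unfold det
  ring

/-- P1 -/
lemma pos {i j : ℕ} (hij : i < j) (hp : th j < th i + Real.pi) : 0 < det (p i) (p j) := by
  obtain ⟨r, s, hr, hs, e⟩ := polar h i j
  rw [e]
  exact mul_pos (mul_pos hr hs) (Real.sin_pos_of_pos_of_lt_pi (by linarith [lt_th h hij]) (by linarith))

lemma neg {i j : ℕ} (hij : j < i + 10) (hp : th i + Real.pi < th j) : det (p i) (p j) < 0 := by
  obtain ⟨r, s, hr, hs, e⟩ := polar h i j
  rw [e]
  have h1 := th_lt h hij
  have h2 : Real.sin (th j - th i) < 0 := by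
    rw [← Real.sin_sub_two_pi]
    exact Real.sin_neg_of_neg_of_neg_pi_lt (by linarith) (by linarith)
  exact mul_neg_of_pos_of_neg (mul_pos hr hs) h2

lemma zero {i j : ℕ} (hp : th j = th i + Real.pi) : det (p i) (p j) = 0 := by
  obtain ⟨r, s, hr, hs, e⟩ := polar h i j
  rw [e, hp, add_sub_cancel_left, Real.sin_pi, mul_zero]

lemma nonpos {i j : ℕ} (hij : j < i + 10) (hp : th i + Real.pi ≤ th j) : det (p i) (p j) ≤ 0 := by
  rcases eq_or_lt_of_le hp with h1 | h1
  · exact (zero h h1.symm).le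
  · exact (neg h hij h1).le

/-- the sign of `D_ij` is given by the angle -/
lemma pos_iff {i j : ℕ} (h1 : i < j) (h2 : j < i + 10) : 0 < det (p i) (p j) ↔ th j < th i + Real.pi := by
  constructor
  · intro hd
    by_contra hc
    linarith [nonpos h h2 (not_lt.1 hc)]
  · exact pos h h1

lemma neg_iff {i j : ℕ} (h1 : i < j) (h2 : j < i + 10) : det (p i) (p j) < 0 ↔ th i + Real.pi < th j := by
  constructor
  · intro hd
    rcases lt_trichotomy (th j) (th i + Real.pi) with h3 | h3 | h3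
    · linarith [pos h h1 h3]
    · exact absurd h3 (h.ch.gen i j h1 h2)
    · exact h3
  · exact neg h h2

lemma sgn {i j : ℕ} (h1 : i < j) (h2 : j < i + 10) : det (p i) (p j) < 0 ∨ 0 < det (p i) (p j) := by
  rcases lt_trichotomy (th j) (th i + Real.pi) with h3 | h3 | h3
  · exact Or.inr (pos h h1 h3)
  · exact absurd h3 (h.ch.gen i j h1 h2)
  · exact Or.inl (neg h h2 h3)

/-- monotonicity of the signs -/
lemma pos_mono {i i' j j' : ℕ} (h1 : i ≤ i') (h2 : i' < j') (h3 : j' ≤ j) (h4 : j < i + 10)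
    (hp : 0 < det (p i) (p j)) : 0 < det (p i') (p j') := by
  have e := (pos_iff h (by omega) h4).1 hp
  exact pos h h2 (by linarith [h.ch.mono.monotone h1, h.ch.mono.monotone h3])

lemma neg_mono {i i' j j' : ℕ} (h1 : i' ≤ i) (h2 : i < j) (h3 : j ≤ j') (h4 : j' < i' + 10)
    (hp : det (p i) (p j) < 0) : det (p i') (p j') < 0 := by
  have e := (neg_iff h h2 (by omega)).1 hp
  exact neg h h4 (by linarith [h.ch.mono.monotone h1, h.ch.mono.monotone h3])

/-- periodicity -/
lemma per (i : ℕ) : p (i + 10) = p i := h.ch.pper i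

/-- P4: the supporting functional at `p i` -/
lemma cent (i : ℕ) : ∃ f : ℕ → ℝ, (∀ j, f j ≤ 1) ∧ (∀ j, -(31 / 10) ≤ f j) ∧ f i = 1 ∧
    ∀ j k, det (p j) (p k) = det (p i) (p k) * f j - det (p i) (p j) * f k := by
  obtain ⟨f, h1, h2, h3⟩ := supp h.cvx h.int h.cen (h.ch.fr i)
  refine ⟨fun j => f (p j), fun j => h2 _ (memQ h j), fun j => h3 _ (memQ h j), h1, fun j k => ?_⟩
  have h4 := congrArg f (three (p i) (p j) (p k))
  simp only [map_add, map_smul, smul_eq_mul, map_zero, h1, mul_one] at h4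
  rw [det_swap (p k) (p i)] at h4
  linarith

/-- convexity: `D_ik ≤ D_ij + D_jk` -/
lemma conv {i j k : ℕ} (h1 : 0 ≤ det (p i) (p j)) (h2 : 0 ≤ det (p j) (p k)) :
    det (p i) (p k) ≤ det (p i) (p j) + det (p j) (p k) := by
  obtain ⟨f, hf, -, -, e⟩ := cent h j
  have e1 := e i k
  rw [det_swap (p j) (p i)] at e1
  have a1 := mul_le_mul_of_nonneg_left (hf i) h2
  have a2 := mul_le_mul_of_nonneg_left (hf k) h1
  linarith

/-- centrality, both points before a half-turn -/
lemma cen1 {i j k : ℕ} (h1 : 0 ≤ det (p i) (p j)) (h2 : 0 ≤ det (p i) (p k)) :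
    det (p j) (p k) ≤ det (p i) (p k) + 31 / 10 * det (p i) (p j) := by
  obtain ⟨f, hf, hf2, -, e⟩ := cent h i
  rw [e j k]
  have a1 := mul_le_mul_of_nonneg_left (hf j) h2
  have a2 := mul_le_mul_of_nonneg_left (hf2 k) h1
  linarith

lemma cen2 {i j k : ℕ} (h1 : 0 ≤ det (p i) (p j)) (h2 : 0 ≤ det (p i) (p k)) :
    -det (p j) (p k) ≤ 31 / 10 * det (p i) (p k) + det (p i) (p j) := by
  obtain ⟨f, hf, hf2, -, e⟩ := cent h i
  rw [e j k]
  have a1 := mul_le_mul_of_nonneg_left (hf2 j) h2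
  have a2 := mul_le_mul_of_nonneg_left (hf k) h1
  linarith

/-- centrality, `j` before and `k` after the point opposite to `p i` -/
lemma cen3 {i j k : ℕ} (h1 : 0 ≤ det (p i) (p j)) (h2 : det (p i) (p k) ≤ 0) :
    det (p j) (p k) ≤ 31 / 10 * (-det (p i) (p k) + det (p i) (p j)) := by
  obtain ⟨f, hf, hf2, -, e⟩ := cent h i
  rw [e j k]
  have a1 := mul_le_mul_of_nonneg_left (hf2 j) (neg_nonneg.2 h2)
  have a2 := mul_le_mul_of_nonneg_left (hf2 k) h1
  linarith

lemma cen4 {i j k : ℕ} (h1 : 0 ≤ det (p i) (p j)) (h2 : det (p i) (p k) ≤ 0) :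
    -det (p j) (p k) ≤ -det (p i) (p k) + det (p i) (p j) := by
  obtain ⟨f, hf, hf2, -, e⟩ := cent h i
  rw [e j k]
  have a1 := mul_le_mul_of_nonneg_left (hf j) (neg_nonneg.2 h2)
  have a2 := mul_le_mul_of_nonneg_left (hf k) h1
  linarith

/-- P5: shift -/
lemma shift : Hyp Q (fun i => th (i + 1)) (fun i => p (i + 1)) where
  cvx := h.cvx
  cpt := h.cpt
  int := h.int
  cen := h.cen
  ch :=
    { mono := fun i j hij => h.ch.mono (by omega)
      per := fun i => by
        have := h.ch.per (i + 1)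
        rw [show i + 1 + 10 = i + 10 + 1 by ring] at this
        exact this
      pper := fun i => by
        have := h.ch.pper (i + 1)
        rw [show i + 1 + 10 = i + 10 + 1 by ring] at this
        exact this
      pol := fun i => h.ch.pol (i + 1)
      fr := fun i => h.ch.fr (i + 1)
      gen := fun i j h1 h2 => h.ch.gen (i + 1) (j + 1) (by omega) (by omega)
      pair := fun i j h1 h2 h3 => h.ch.pair (i + 1) (j + 1) (by omega) (by omega) h3
      ch3 := fun i h1 h2 => h.ch.ch3 (i + 1) h1 h2 }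

end

end Pool.Agent.H490.TW.PB
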