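import Pool.Agent.H221.TW.Cen

/-!
Project TW (helper221), part TCH: at an optimal centre `0` lies in the convex hull of the touching
normals, and four of them are enough (Caratheodory).
-/

set_option autoImplicit false

namespace Pool.Agent.H490.TW

open Pool.Agent.H332.HT (V2 V3)
open Pool.Agent.H221.TW (MC S_tch)

/-- the scalar product -/
def ip (c y : V3) : ℝ := c.1.1 * y.1.1 + c.1.2 * y.1.2 + c.2 * y.2

/-- the functional of a vector -/
def lin (c : V3) : V3 →ₗ[ℝ] ℝ where
  toFun y := ip c y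
  map_add' x y := by simp only [ip, Prod.fst_add, Prod.snd_add]; ring
  map_smul' r y := by simp only [ip, Prod.smul_fst, Prod.smul_snd, smul_eq_mul, RingHom.id_apply]; ring

/-- the vector of a functional -/
def vec (f : V3 →ₗ[ℝ] ℝ) : V3 := ((f ((1, 0), 0), f ((0, 1), 0)), f ((0, 0), 1))

lemma ip_vec (f : V3 →ₗ[ℝ] ℝ) (y : V3) : ip (vec f) y = f y := by
  have h : y = y.1.1 • (((1, 0), 0) : V3) + y.1.2 • (((0, 1), 0) : V3) + y.2 • (((0, 0), 1) : V3) := by
    ext <;> simp
  conv_rhs => rw [h]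
  simp only [map_add, map_smul, smul_eq_mul, ip, vec]
  ring

lemma ip_comm (c y : V3) : ip c y = ip y c := by
  unfold ip; ring

lemma ip_smul (r : ℝ) (c y : V3) : ip c (r • y) = r * ip c y := by
  simp only [ip, Prod.smul_fst, Prod.smul_snd, smul_eq_mul]; ring

lemma ip_sub (c x y : V3) : ip c (x - y) = ip c x - ip c y := by
  simp only [ip, Prod.fst_sub, Prod.snd_sub]; ring

lemma ip_neg (c x : V3) : ip c (-x) = -ip c x := by
  simp only [ip, Prod.fst_neg, Prod.snd_neg]; ring

lemma continuous_ip : Continuous fun p : V3 × V3 => ip p.1 p.2 := by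
  unfold ip; fun_prop

lemma continuous_ip_left (y : V3) : Continuous fun c : V3 => ip c y := by
  unfold ip; fun_prop

/-- the polar -/
def B (K : Set V3) : Set V3 := {c | ∀ y ∈ K, ip c y ≤ 1}

/-- the touching normals -/
def Tn (K : Set V3) (lam : ℝ) : Set V3 := {c | (∀ y ∈ K, ip c y ≤ 1) ∧ ∃ y ∈ K, ip c y = -lam}

lemma B_compact {K : Set V3} (h0 : (0 : V3) ∈ interior K) : IsCompact (B K) := by
  have hcl : IsClosed (B K) := by
    have : B K = ⋂ y ∈ K, {c | ip c y ≤ 1} := by
      ext c; simp [B]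
    rw [this]
    exact isClosed_biInter fun y _ => isClosed_le (continuous_ip_left y) continuous_const
  obtain ⟨r, hr, hball⟩ := Metric.mem_nhds_iff.1 (mem_interior_iff_mem_nhds.1 h0)
  refine Metric.isCompact_of_isClosed_isBounded hcl ?_
  refine (Metric.isBounded_iff_subset_closedBall 0).2 ⟨2 / r, fun c hc => ?_⟩
  have key : ∀ y : V3, ‖y‖ < r → ip c y ≤ 1 := fun y hy => hc y (hball (by simpa using hy))
  have hr2 : |r / 2| < r := by rw [abs_of_pos (by linarith)]; linarith
  have n1 : ∀ s : ℝ, |s| < r → ‖(((s, 0), 0) : V3)‖ < r := by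
    intro s hs; simp only [Prod.norm_def, Real.norm_eq_abs, abs_zero]; simp [hs]
  have n2 : ∀ s : ℝ, |s| < r → ‖(((0, s), 0) : V3)‖ < r := by
    intro s hs; simp only [Prod.norm_def, Real.norm_eq_abs, abs_zero]; simp [hs]
  have n3 : ∀ s : ℝ, |s| < r → ‖(((0, 0), s) : V3)‖ < r := by
    intro s hs; simp only [Prod.norm_def, Real.norm_eq_abs, abs_zero]; simp [hs]
  have hr3 : |-(r / 2)| < r := by rw [abs_neg]; exact hr2
  have a1 := key _ (n1 _ hr2)
  have a2 := key _ (n1 _ hr3)
  have b1 := key _ (n2 _ hr2)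
  have b2 := key _ (n2 _ hr3)
  have c1 := key _ (n3 _ hr2)
  have c2 := key _ (n3 _ hr3)
  simp only [ip, mul_zero, add_zero, zero_add] at a1 a2 b1 b2 c1 c2
  have e : ∀ x : ℝ, x * (r / 2) ≤ 1 → x * -(r / 2) ≤ 1 → |x| ≤ 2 / r := by
    intro x h1 h2
    rw [abs_le]
    constructor
    · rw [neg_le, div_eq_mul_inv, ← div_eq_mul_inv, le_div_iff₀ hr]; linarith
    · rw [le_div_iff₀ hr]; linarith
  rw [mem_closedBall_zero_iff]
  simp only [Prod.norm_def, Real.norm_eq_abs]
  exact max_le (max_le (e _ a1 a2) (e _ b1 b2)) (e _ c1 c2)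

lemma Tn_compact {K : Set V3} (hK : IsCompact K) (h0 : (0 : V3) ∈ interior K) (lam : ℝ) :
    IsCompact (Tn K lam) := by
  have h : Tn K lam = Prod.fst '' ((B K ×ˢ K) ∩ {p : V3 × V3 | ip p.1 p.2 = -lam}) := by
    ext c
    constructor
    · rintro ⟨h1, y, hy, h2⟩
      exact ⟨(c, y), ⟨⟨h1, hy⟩, h2⟩, rfl⟩
    · rintro ⟨⟨c', y⟩, ⟨⟨h1, hy⟩, h2⟩, rfl⟩
      exact ⟨h1, y, hy, h2⟩
  rw [h]
  exact (((B_compact h0).prod hK).inter_right (isClosed_eq continuous_ip continuous_const)).image
    continuous_fst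

lemma cara {s : Set V3} {x : V3} (hx : x ∈ convexHull ℝ s) :
    ∃ (c : Fin 4 → V3) (w : Fin 4 → ℝ), (∀ i, c i ∈ s) ∧ (∀ i, 0 ≤ w i) ∧ ∑ i, w i = 1 ∧
      ∑ i, w i • c i = x := by
  obtain ⟨ι, _, z, w, hz, hai, hw, hs, hx⟩ := eq_pos_convex_span_of_mem_convexHull hx
  have hcard : Fintype.card ι ≤ 4 := by
    have h1 := hai.card_le_finrank_succ
    have h2 := Submodule.finrank_le (vectorSpan ℝ (Set.range z))
    have h3 : Module.finrank ℝ ((ℝ × ℝ) × ℝ) = 3 := by simp [Module.finrank_prod]
    exact h1.trans (Nat.succ_le_succ (h2.trans h3.le))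
  have hne : Nonempty ι := by
    by_contra h
    rw [not_nonempty_iff] at h
    simp at hs
  obtain ⟨i0⟩ := hne
  obtain ⟨f⟩ : Nonempty (ι ↪ Fin 4) := Function.Embedding.nonempty_of_card_le (by simpa using hcard)
  refine ⟨Function.extend f z fun _ => z i0, Function.extend f w 0, fun i => ?_, fun i => ?_, ?_, ?_⟩
  · by_cases h : ∃ j, f j = i
    · obtain ⟨j, rfl⟩ := h
      rw [f.injective.extend_apply]
      exact hz ⟨j, rfl⟩
    · rw [Function.extend_apply' _ _ _ h]
      exact hz ⟨i0, rfl⟩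
  · by_cases h : ∃ j, f j = i
    · obtain ⟨j, rfl⟩ := h
      rw [f.injective.extend_apply]
      exact (hw j).le
    · rw [Function.extend_apply' _ _ _ h]
      exact le_rfl
  · rw [← hs]
    refine (Fintype.sum_of_injective f f.injective w _ (fun i hi => ?_) fun i => ?_).symm
    · rw [Function.extend_apply' _ _ _ (by simpa using hi)]
      rfl
    · rw [f.injective.extend_apply]
  · rw [← hx]
    refine (Fintype.sum_of_injective f f.injective (fun i => w i • z i) _ (fun i hi => ?_) fun i => ?_).symm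
    · rw [Function.extend_apply' w _ _ (by simpa using hi)]
      simp
    · rw [f.injective.extend_apply, f.injective.extend_apply]

lemma hull_compact {s : Set V3} (hs : IsCompact s) : IsCompact (convexHull ℝ s) := by
  have h : convexHull ℝ s = (fun p : (Fin 4 → ℝ) × (Fin 4 → V3) => ∑ i, p.1 i • p.2 i) ''
      (stdSimplex ℝ (Fin 4) ×ˢ Set.pi Set.univ fun _ => s) := by
    ext x
    constructor
    · intro hx
      obtain ⟨c, w, h1, h2, h3, h4⟩ := cara hx
      exact ⟨(w, c), ⟨⟨h2, h3⟩, fun i _ => h1 i⟩, h4⟩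
    · rintro ⟨⟨w, c⟩, ⟨⟨h2, h3⟩, h1⟩, rfl⟩
      exact (convex_convexHull ℝ s).sum_mem (fun i _ => h2 i) h3
        fun i _ => subset_convexHull ℝ s (h1 i trivial)
  rw [h]
  refine ((isCompact_stdSimplex ℝ (Fin 4)).prod (isCompact_univ_pi fun _ => hs)).image ?_
  fun_prop

/-- points of a closed convex set with `0` in the interior are described by the polar -/
lemma mem_of_polar {K : Set V3} (hK : IsCompact K) (hc : Convex ℝ K) (h0 : (0 : V3) ∈ interior K) {x : V3}
    (h : ∀ c ∈ B K, ip c x ≤ 1) : x ∈ K := by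
  by_contra hx
  obtain ⟨f, u, h1, h2⟩ := geometric_hahn_banach_closed_point hc hK.isClosed hx
  have hu : 0 < u := by
    have := h1 0 (interior_subset h0)
    simpa using this
  have e : ∀ y : V3, ip ((1 / u) • vec (f : V3 →ₗ[ℝ] ℝ)) y = f y / u := by
    intro y
    rw [ip_comm, ip_smul, ip_comm, ip_vec]
    simp only [ContinuousLinearMap.coe_coe]
    ring
  have h3 := h ((1 / u) • vec (f : V3 →ₗ[ℝ] ℝ)) fun y hy => by
    rw [e, div_le_one hu]
    exact (h1 y hy).le
  rw [e, div_le_one hu] at h3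
  linarith

/-- `0` lies in the convex hull of the touching normals -/
lemma zero_mem {K : Set V3} {lam : ℝ} (hK : IsCompact K) (hc : Convex ℝ K) (h0 : (0 : V3) ∈ interior K)
    (h1 : 1 ≤ lam) (hcen : ∀ y ∈ K, -((1 / lam) • y) ∈ K)
    (hmin : ∀ (o' : V3) (lam' : ℝ), 1 ≤ lam' → (∀ y ∈ K, o' - (1 / lam') • (y - o') ∈ K) → lam ≤ lam') :
    (0 : V3) ∈ convexHull ℝ (Tn K lam) := by
  have hl0 : 0 < lam := by linarith
  have hlow : ∀ c ∈ B K, ∀ y ∈ K, -lam ≤ ip c y := by
    intro c hc y hy
    have := hc _ (hcen y hy)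
    rw [ip_neg, ip_smul] at this
    have h2 : -(1 / lam * ip c y) * lam = -ip c y := by field_simp
    have h3 : -(1 / lam * ip c y) * lam ≤ 1 * lam := mul_le_mul_of_nonneg_right this hl0.le
    rw [h2] at h3
    linarith
  rcases eq_or_lt_of_le h1 with hl | hl
  · -- the symmetric case
    subst hl
    have hs : ∀ y ∈ K, -y ∈ K := by
      intro y hy
      have := hcen y hy
      simpa using this
    -- a maximum of the last coordinate
    obtain ⟨y0, hy0, hmax⟩ := hK.exists_isMaxOn ⟨0, interior_subset h0⟩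
      (continuous_snd : Continuous fun y : V3 => y.2).continuousOn
    have hm : 0 < y0.2 := by
      obtain ⟨r, hr, hball⟩ := Metric.mem_nhds_iff.1 (mem_interior_iff_mem_nhds.1 h0)
      have h2 : (((0, 0), r / 2) : V3) ∈ K := by
        apply hball
        rw [mem_ball_zero_iff]
        simp only [Prod.norm_def, Real.norm_eq_abs, abs_zero]
        simp only [max_self, abs_of_pos (half_pos hr)]
        exact max_lt hr (by linarith)
      have h3 := hmax h2
      have : r / 2 ≤ y0.2 := h3
      linarith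
    have e : ∀ (s : ℝ) (y : V3), ip (((0, 0), s) : V3) y = s * y.2 := by
      intro s y; simp [ip]
    have m1 : (((0, 0), 1 / y0.2) : V3) ∈ Tn K 1 := by
      refine ⟨fun y hy => ?_, -y0, hs _ hy0, ?_⟩
      · rw [e, one_div, inv_mul_le_iff₀ hm, mul_one]
        exact hmax hy
      · rw [e, Prod.snd_neg]
        field_simp
    have m2 : (((0, 0), -(1 / y0.2)) : V3) ∈ Tn K 1 := by
      refine ⟨fun y hy => ?_, y0, hy0, ?_⟩
      · rw [e]
        have h2 : (-y).2 ≤ y0.2 := hmax (hs _ hy)
        rw [Prod.snd_neg] at h2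
        have h3 : -(1 / y0.2) * y.2 = (-y.2) / y0.2 := by ring
        rw [h3, div_le_one hm]
        exact h2
      · rw [e]
        field_simp
    have h4 := (convex_convexHull ℝ (Tn K 1)) (subset_convexHull ℝ _ m1) (subset_convexHull ℝ _ m2)
      (show (0 : ℝ) ≤ 1 / 2 by norm_num) (show (0 : ℝ) ≤ 1 / 2 by norm_num) (by norm_num)
    convert h4 using 1
    ext <;> simp
  · by_contra hz
    have hcl : IsClosed (convexHull ℝ (Tn K lam)) := (hull_compact (Tn_compact hK h0 lam)).isClosed
    obtain ⟨f, u, hu, hf⟩ := geometric_hahn_banach_point_closed (convex_convexHull ℝ _) hcl hz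
    rw [map_zero] at hu
    set v : V3 := vec (f : V3 →ₗ[ℝ] ℝ) with hv
    have hfv : ∀ c : V3, f c = ip c v := by
      intro c
      rw [hv, ip_comm, ip_vec]
      rfl
    have hT : ∀ c ∈ Tn K lam, u < ip c v := by
      intro c hcT
      rw [← hfv]
      exact hf c (subset_convexHull ℝ _ hcT)
    -- a bound
    obtain ⟨M, hM⟩ := (B_compact h0).exists_bound_of_continuousOn (continuous_ip_left v).continuousOn
    have hM0 : 0 ≤ M := (norm_nonneg _).trans (hM 0 fun y _ => by simp [ip])
    -- a gap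
    obtain ⟨η, hη, hgap⟩ : ∃ η : ℝ, 0 < η ∧ ∀ c ∈ B K, ip c v ≤ u → ∀ y ∈ K, -lam + η ≤ ip c y := by
      have hA : IsCompact ((B K ∩ {c | ip c v ≤ u}) ×ˢ K) :=
        ((B_compact h0).inter_right (isClosed_le (continuous_ip_left v) continuous_const)).prod hK
      rcases ((B K ∩ {c | ip c v ≤ u}) ×ˢ K).eq_empty_or_nonempty with he | hne
      · refine ⟨1, one_pos, fun c hc hcu y hy => ?_⟩
        have : ((c, y) : V3 × V3) ∈ ((B K ∩ {c | ip c v ≤ u}) ×ˢ K) := ⟨⟨hc, hcu⟩, hy⟩
        rw [he] at this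
        exact this.elim
      · obtain ⟨⟨c0, y0⟩, ⟨⟨hc0, hcu0⟩, hy0⟩, hmn⟩ := hA.exists_isMinOn hne continuous_ip.continuousOn
        refine ⟨ip c0 y0 + lam, ?_, fun c hc hcu y hy => ?_⟩
        · rcases eq_or_lt_of_le (hlow c0 hc0 y0 hy0) with h | h
          · exact absurd (hT c0 ⟨hc0, y0, hy0, h.symm⟩) (not_lt.2 hcu0)
          · linarith
        · have h2 : ip c0 y0 ≤ ip c y := hmn (show ((c, y) : V3 × V3) ∈ _ from ⟨⟨hc, hcu⟩, hy⟩)
          linarith
    set ε : ℝ := η / (2 * (lam + 1) * (M + 1)) with hε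
    have hε0 : 0 < ε := by positivity
    have hεM : (lam + 1) * ε * M ≤ η / 2 := by
      have h2 : (lam + 1) * ε * (M + 1) = η / 2 := by
        rw [hε]; field_simp
      have h3 : (lam + 1) * ε * M ≤ (lam + 1) * ε * (M + 1) :=
        mul_le_mul_of_nonneg_left (by linarith) (by positivity)
      linarith
    set t : ℝ := min (min (2 * ε * u) (η / 2)) (lam - 1) with ht
    have ht0 : 0 < t := lt_min (lt_min (by positivity) (by positivity)) (by linarith)
    have t1 : t ≤ 2 * ε * u := (min_le_left _ _).trans (min_le_left _ _)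
    have t2 : t ≤ η / 2 := (min_le_left _ _).trans (min_le_right _ _)
    have t3 : t ≤ lam - 1 := min_le_right _ _
    have hl' : 0 < lam - t := by linarith
    have := hmin (-(ε • v)) (lam - t) (by linarith) fun y hy => ?_
    · linarith
    refine mem_of_polar hK hc h0 fun c hcB => ?_
    have e1 : ip c (-(ε • v) - (1 / (lam - t)) • (y - -(ε • v))) =
        (-(ε * ip c v) * (lam - t + 1) - ip c y) / (lam - t) := by
      rw [ip_sub, ip_smul, ip_sub, ip_neg, ip_smul]
      field_simp
      ring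
    rw [e1, div_le_one hl']
    rcases le_or_gt (ip c v) u with hcu | hcu
    · have h2 := hgap c hcB hcu y hy
      have h3 : -M ≤ ip c v := (abs_le.1 (by simpa [Real.norm_eq_abs] using hM c hcB)).1
      have h4 : -(ε * ip c v) * (lam - t + 1) ≤ ε * M * (lam + 1) := by
        have h5 : -(ε * ip c v) ≤ ε * M := by nlinarith
        calc -(ε * ip c v) * (lam - t + 1) ≤ ε * M * (lam - t + 1) :=
              mul_le_mul_of_nonneg_right h5 (by linarith)
          _ ≤ ε * M * (lam + 1) := mul_le_mul_of_nonneg_left (by linarith) (by positivity)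
      nlinarith
    · have h2 := hlow c hcB y hy
      have h4 : -(ε * ip c v) * (lam - t + 1) ≤ -(ε * u) * 2 := by
        have h5 : ε * u ≤ ε * ip c v := mul_le_mul_of_nonneg_left hcu.le hε0.le
        have h6 : (0 : ℝ) < ε * u := by positivity
        nlinarith
      nlinarith

theorem tch : S_tch := by
  intro K lam hK hc h0 h1 h3 hcen hmin
  obtain ⟨c, w, hcT, hw, hs, hz⟩ := cara (zero_mem hK hc h0 h1 hcen hmin)
  refine ⟨fun i => lin (c i), w, ?_⟩
  exact
    { cpt := hK
      cvx := hc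
      int := h0
      one := h1
      three := h3
      cen := hcen
      nn := hw
      sum := hs
      zero := by
        refine LinearMap.ext fun y => ?_
        have h2 : (lin y) (∑ i, w i • c i) = 0 := by rw [hz, map_zero]
        rw [map_sum] at h2
        rw [LinearMap.sum_apply, LinearMap.zero_apply, ← h2]
        refine Finset.sum_congr rfl fun i _ => ?_
        rw [LinearMap.smul_apply, map_smul]
        show w i • ip (c i) y = w i • ip y (c i)
        rw [ip_comm]
      le := fun i y hy => (hcT i).1 y hy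
      far := fun i => (hcT i).2 }

end Pool.Agent.H490.TW
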