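import Pool.Agent.H490.TW.PB
import Pool.Agent.H265.TW.FC
import Pool.Agent.H768.PL.Cfg

/-!
Project TW (helper221), planar lemma: the geometric part `S_geo` (statement of helper768).
-/

set_option autoImplicit false

namespace Pool.Agent.H490.TW.Geo

open Pool.Agent.H332.HT (V2 det)
open Pool.Agent.H490.TW.PB
open Pool.Agent.H768.PL

theorem geo : S_geo := by
  intro Q hcvx hcpt hint hcen th p hch
  have h : Hyp Q th p := ⟨hcvx, hcpt, hint, hcen, hch⟩
  have hd : Pool.Agent.H265.TW.Dat Q th p := ⟨hcvx, hcpt, hint, hcen, hch⟩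
  have hsub : ∀ i j a b, i ≤ a → a < b → b ≤ j → j < i + 10 → 0 < det (p i) (p j) →
      0 < det (p a) (p b) := fun i j a b h1 h2 h3 h4 h5 => pos_mono h h1 h2 h3 h4 h5
  refine
    { anti := fun i j => det_swap _ _
      per := fun i j => ?_
      pl := fun a b c d => ?_
      ne := fun i j h1 h2 => ?_
      sub := hsub
      lab := fun i j h1 h2 => ?_
      fF := fun i j a b e h1 h2 h3 h4 h5 h6 h7 h8 => ?_
      fC := fun i j a e g h1 h2 h3 h4 h5 h6 h7 => ?_
      fG := fun i j c a b h1 h2 h3 h4 h5 h6 h7 h8 => ?_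
      fK := fun i j g c b h1 h2 h3 h4 h5 h6 h7 => ?_
      ch := fun i h1 h2 => ?_ }
  · show det (p (i + 10)) (p j) = det (p i) (p j)
    rw [per h]
  · show det (p a) (p c) * det (p b) (p d) = det (p a) (p b) * det (p c) (p d) +
      det (p a) (p d) * det (p b) (p c)
    unfold det; ring
  · rcases sgn h h1 h2 with h3 | h3
    · exact ne_of_lt h3
    · exact ne_of_gt h3
  · by_cases hp : 0 < det (p i) (p (j + 1))
    · have t := (pos_iff h (by omega) (by omega)).1 hp
      rcases lt_max_iff.1 (hch.pair i j h1 h2 t) with h3 | h3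
      · exact Or.inr fun _ => h3
      · exact Or.inl fun _ => h3
    · exact Or.inl fun h3 => absurd h3 hp
  · have hp : 0 < det (p i) (p (j + 1)) := hsub a e i (j + 1) h3 (by omega) h6 h7 h8
    have ht := (pos_iff h (by omega) h7).1 h8
    have hl := h2 hp
    exact hd.F h3 (by omega) h4 h5 h6 ht hl
  · have hp : 0 < det (p i) (p (j + 1)) := hsub a g i (j + 1) h3 (by omega) (by omega) h6 h7
    have ht := (pos_iff h (by omega) h6).1 h7
    have hl := h2 hp
    exact hd.C h3 (by omega) h4 h5 ht hl
  · have hp : 0 < det (p i) (p (j + 1)) := hsub c b i (j + 1) h3 (by omega) h6 h7 h8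
    have ht := (pos_iff h (by omega) h7).1 h8
    have hl := h2 hp
    exact hd.G h3 (by omega) h5 h4 h6 ht hl
  · have hp : 0 < det (p i) (p (j + 1)) := hsub g b i (j + 1) (by omega) (by omega) h5 h6 h7
    have ht := (pos_iff h (by omega) h6).1 h7
    have hl := h2 hp
    exact hd.K h4 (by omega) h5 h3 ht hl
  · have t1 := (pos_iff h (by omega) (by omega)).1 h1
    have t2 := (pos_iff h (by omega) (by omega)).1 h2
    exact hch.ch3 i t1 t2

end Pool.Agent.H490.TW.Geo
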