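import Pool.Agent.H490.TW.PB

/-!
Project TW (helper221), S_planarG: soundness of the facts of the certificate checker.
-/

set_option autoImplicit false

namespace Pool.Agent.H490.TW.PC

open Pool.Agent.H332.HT (V2 det)
open Pool.Agent.H490.TW.PB

/-- weighted inequality of the means: `x + y ≤ z` gives
`m^m x^k y^(m-k) ≤ k^k (m-k)^(m-k) z^m` -/
lemma am {x y z : ℝ} (hx : 0 ≤ x) (hy : 0 ≤ y) (h : x + y ≤ z) (k l : ℕ) :
    ((k + l : ℕ) : ℝ) ^ (k + l) * (x ^ k * y ^ l) ≤ (k : ℝ) ^ k * (l : ℝ) ^ l * z ^ (k + l) := by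
  have hz : 0 ≤ z := by linarith
  rcases Nat.eq_zero_or_pos k with rfl | hk
  · simp only [Nat.zero_add, Nat.cast_zero, pow_zero, one_mul]
    exact mul_le_mul_of_nonneg_left (pow_le_pow_left₀ hy (by linarith) l) (by positivity)
  rcases Nat.eq_zero_or_pos l with rfl | hl
  · simp only [Nat.add_zero, Nat.cast_zero, pow_zero, mul_one]
    exact mul_le_mul_of_nonneg_left (pow_le_pow_left₀ hx (by linarith) k) (by positivity)
  have hk' : (0 : ℝ) < k := by exact_mod_cast hk
  have hl' : (0 : ℝ) < l := by exact_mod_cast hl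
  have hm : (0 : ℝ) < (k : ℝ) + l := by positivity
  -- weights
  have h1 := Real.geom_mean_le_arith_mean2_weighted (w₁ := k / ((k : ℝ) + l)) (w₂ := l / ((k : ℝ) + l))
    (p₁ := x / k) (p₂ := y / l) (by positivity) (by positivity) (by positivity) (by positivity)
    (by field_simp)
  have h2 : (k : ℝ) / (k + l) * (x / k) + l / (k + l) * (y / l) = (x + y) / (k + l) := by
    field_simp
  rw [h2] at h1
  have h3 : (x + y) / ((k : ℝ) + l) ≤ z / (k + l) := div_le_div_of_nonneg_right h hm.le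
  have h4 := pow_le_pow_left₀ (by positivity) (h1.trans h3) (k + l)
  have e1 : (((x / k) ^ ((k : ℝ) / (k + l)) * (y / l) ^ ((l : ℝ) / (k + l))) : ℝ) ^ (k + l) =
      (x / k) ^ k * (y / l) ^ l := by
    rw [mul_pow, ← Real.rpow_natCast, ← Real.rpow_natCast, ← Real.rpow_mul (by positivity),
      ← Real.rpow_mul (by positivity)]
    push_cast
    rw [div_mul_cancel₀ _ hm.ne', div_mul_cancel₀ _ hm.ne', Real.rpow_natCast, Real.rpow_natCast]
  rw [e1, div_pow, div_pow, div_pow] at h4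
  rw [div_mul_div_comm, div_le_div_iff₀ (by positivity) (by positivity)] at h4
  push_cast
  nlinarith [h4]

section
variable {Q : Set V2} {th : ℕ → ℝ} {p : ℕ → V2} (h : Hyp Q th p)
include h

/-- the functional at `p a` is negative at `p e` if `D(a,e) < D(c,e)`, `c` between -/
lemma ce {a c e g : ℕ} (h1 : 0 < det (p a) (p c)) (h2 : 0 ≤ det (p a) (p e))
    (h3 : det (p a) (p e) < det (p c) (p e)) (h4 : 0 ≤ det (p a) (p g)) :
    det (p e) (p g) ≤ 31 / 10 * det (p a) (p e) := by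
  obtain ⟨f, hf, hf2, -, E⟩ := cent h a
  have e1 := E c e
  have e2 := E e g
  have a1 := mul_le_mul_of_nonneg_left (hf c) h2
  have hfe : f e < 0 := by
    by_contra hc
    have := mul_nonneg h1.le (not_lt.1 hc)
    linarith
  have a2 := mul_nonneg h4 (neg_nonneg.2 hfe.le)
  have a3 := mul_le_mul_of_nonneg_left (hf2 g) h2
  linarith

/-- the mirror image -/
lemma ce1 {a c e g : ℕ} (h1 : 0 < det (p c) (p e)) (h2 : 0 ≤ det (p a) (p e))
    (h3 : det (p a) (p e) < det (p a) (p c)) (h4 : 0 ≤ det (p g) (p e)) :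
    det (p g) (p a) ≤ 31 / 10 * det (p a) (p e) := by
  obtain ⟨f, hf, hf2, -, E⟩ := cent h e
  have e1 := E a c
  have e2 := E g a
  rw [det_swap (p e) (p c), det_swap (p e) (p a)] at e1
  rw [det_swap (p e) (p a), det_swap (p e) (p g)] at e2
  have a1 := mul_le_mul_of_nonneg_left (hf c) h2
  have hfa : f a < 0 := by
    by_contra hc
    have := mul_nonneg h1.le (not_lt.1 hc)
    linarith
  have a2 := mul_nonneg h4 (neg_nonneg.2 hfa.le)
  have a3 := mul_le_mul_of_nonneg_left (hf2 g) h2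
  linarith

omit h in
/-- the third alternative of CH3 (helper54) -/
lemma c3t {A B U V P Q : ℝ} (hA : 0 < A) (hB : 0 < B) (hAU : A < U) (hBU : B < U)
    (hpl : A * B = P * Q + U * V) (h3 : A + B < 101 / 100 * U + V) :
    P * Q + U * A < 101 / 100 * U ^ 2 ∧ P * Q + U * B < 101 / 100 * U ^ 2 := by
  have hU : 0 < U := hA.trans hAU
  have e1 := mul_lt_mul_of_pos_left h3 hU
  have e2 := mul_nonneg hB.le (sub_nonneg.2 hAU.le)
  have e3 := mul_nonneg hA.le (sub_nonneg.2 hBU.le)
  constructor <;> nlinarith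

/-- the four alternatives of CH3 for the checker: the third one in the multiplied form -/
lemma ch3 (i : ℕ) (h1 : 0 < det (p i) (p (i + 3))) (h2 : 0 < det (p (i + 2)) (p (i + 5))) :
    det (p i) (p (i + 3)) < det (p i) (p (i + 1)) ∨
    det (p (i + 2)) (p (i + 5)) < det (p (i + 4)) (p (i + 5)) ∨
    (det (p i) (p (i + 3)) < det (p (i + 2)) (p (i + 3)) ∧
      det (p (i + 2)) (p (i + 5)) < det (p (i + 2)) (p (i + 3)) ∧
      det (p i) (p (i + 3)) + det (p (i + 2)) (p (i + 5)) <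
        101 / 100 * det (p (i + 2)) (p (i + 3)) + det (p i) (p (i + 5)) ∧
      det (p i) (p (i + 2)) * det (p (i + 3)) (p (i + 5)) +
        det (p (i + 2)) (p (i + 3)) * det (p i) (p (i + 3)) < 101 / 100 * det (p (i + 2)) (p (i + 3)) ^ 2 ∧
      det (p i) (p (i + 2)) * det (p (i + 3)) (p (i + 5)) +
        det (p (i + 2)) (p (i + 3)) * det (p (i + 2)) (p (i + 5)) <
          101 / 100 * det (p (i + 2)) (p (i + 3)) ^ 2) ∨
    (det (p i) (p (i + 3)) < det (p (i + 2)) (p (i + 3)) ∧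
      det (p (i + 2)) (p (i + 5)) < det (p (i + 2)) (p (i + 3)) ∧
      det (p (i + 1)) (p (i + 2)) * det (p (i + 3)) (p (i + 4)) <
      101 / 100 * (det (p i) (p (i + 1)) * det (p (i + 4)) (p (i + 5)))) := by
  have t1 := (pos_iff h (by omega) (by omega)).1 h1
  have t2 := (pos_iff h (by omega) (by omega)).1 h2
  by_cases c1 : det (p i) (p (i + 3)) < det (p i) (p (i + 1))
  · exact Or.inl c1
  by_cases c2 : det (p (i + 2)) (p (i + 5)) < det (p (i + 4)) (p (i + 5))
  · exact Or.inr (Or.inl c2)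
  have l1 : det (p i) (p (i + 3)) < det (p (i + 2)) (p (i + 3)) := by
    rcases lt_max_iff.1 (h.ch.pair i (i + 2) le_rfl (by omega) t1) with h3 | h3
    · exact absurd h3 c1
    · exact h3
  have l2 : det (p (i + 2)) (p (i + 5)) < det (p (i + 2)) (p (i + 3)) := by
    rcases lt_max_iff.1 (h.ch.pair (i + 2) (i + 4) le_rfl (by omega) t2) with h3 | h3
    · exact h3
    · exact absurd h3 c2
  rcases h.ch.ch3 i t1 t2 with h3 | h3 | h3 | h3
  · exact absurd h3 c1
  · exact absurd h3 c2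
  · refine Or.inr (Or.inr (Or.inl ⟨l1, l2, h3, ?_⟩))
    refine c3t h1 h2 l1 l2 ?_ h3
    linarith [pluecker (p i) (p (i + 2)) (p (i + 3)) (p (i + 5))]
  · exact Or.inr (Or.inr (Or.inr ⟨l1, l2, h3⟩))

end

end Pool.Agent.H490.TW.PC
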