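import Pool.Agent.H490.TW.PB
import Pool.Agent.H265.TW.FC

/-!
Project TW (helper221), planar lemma: reduction to order patterns by rotation (interface of
helper54).
-/

set_option autoImplicit false

namespace Pool.Agent.H54.TW

open Pool.Agent.H332.HT (V2 det)
open Pool.Agent.H490.TW.PB
open Pool.Agent.H221.TW

/-- the reach vector `r`: `r_i` is the number of the following points within a half-turn -/
def Fits (r : List ℕ) (th : ℕ → ℝ) : Prop :=
  ∀ i j, i < j → j < i + 10 → (th j < th i + Real.pi ↔ j - i ≤ r.getD (i % 10) 0)

/-- the new entry is consistent with the earlier ones -/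
def cons (l : List ℕ) (v : ℕ) : Bool :=
  (List.range l.length).all fun i => decide (l.length - i ≤ l.getD i 0) != decide (10 + i - l.length ≤ v)

def rot (l : List ℕ) (m : ℕ) : List ℕ := (List.range 10).map fun i => l.getD ((i + m) % 10) 0

def srch (reps : List (List ℕ)) : ℕ → List ℕ → Bool
  | 0, l => (List.range 10).any fun m => reps.contains (rot l m)
  | n + 1, l => (List.range 10).all fun v => !(cons l v) || srch reps n (l ++ [v])

def cover (reps : List (List ℕ)) : Bool := srch reps 10 []

lemma getD_map_range (R : ℕ → ℕ) (n i : ℕ) (h : i < n) :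
    ((List.range n).map R).getD i 0 = R i := by
  simp [List.getD_eq_getElem?_getD, h]

lemma srch_sound (reps : List (List ℕ)) (R : ℕ → ℕ) (hR : ∀ i, R i ≤ 9)
    (hc : ∀ i j, i < j → j < i + 10 → (j - i ≤ R i ↔ ¬ 10 + i - j ≤ R j)) :
    ∀ n, n ≤ 10 → srch reps n ((List.range (10 - n)).map R) = true →
      ∃ m, rot ((List.range 10).map R) m ∈ reps := by
  intro n
  induction n with
  | zero =>
    intro _ h
    simp only [srch, List.any_eq_true, List.mem_range] at h
    obtain ⟨m, -, h2⟩ := h
    exact ⟨m, by simpa using h2⟩
  | succ n ih =>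
    intro hn h
    apply ih (by omega)
    rw [srch, List.all_eq_true] at h
    have h1 := h (R (10 - (n + 1))) (List.mem_range.2 (by have := hR (10 - (n + 1)); omega))
    rw [Bool.or_eq_true] at h1
    have e : 10 - n = (10 - (n + 1)) + 1 := by omega
    rcases h1 with h1 | h1
    · exfalso
      rw [Bool.not_eq_true', ← Bool.not_eq_true] at h1
      apply h1
      rw [cons, List.all_eq_true]
      intro i hi
      simp only [List.length_map, List.length_range, List.mem_range] at hi ⊢
      rw [getD_map_range R _ i hi]
      have := hc i (10 - (n + 1)) hi (by omega)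
      by_cases c : 10 - (n + 1) - i ≤ R i
      · have c2 := this.1 c
        rw [decide_eq_true c, decide_eq_false c2]
        rfl
      · have c2 : 10 + i - (10 - (n + 1)) ≤ R (10 - (n + 1)) := by
          by_contra c3
          exact c (this.2 c3)
        rw [decide_eq_false c, decide_eq_true c2]
        rfl
    · rw [e, List.range_succ, List.map_append]
      exact h1

lemma hyp_shift {Q : Set V2} {th : ℕ → ℝ} {p : ℕ → V2} (h : Hyp Q th p) (m : ℕ) :
    Hyp Q (fun i => th (i + m)) (fun i => p (i + m)) := by
  induction m with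
  | zero => exact h
  | succ m ih =>
    have := shift ih
    simpa [Nat.add_assoc, Nat.add_comm 1 m] using this

theorem redH (reps : List (List ℕ)) (hcov : cover reps = true)
    (H : ∀ r ∈ reps, ∀ (Q : Set V2) (th : ℕ → ℝ) (p : ℕ → V2), Hyp Q th p → Fits r th → False)
    {Q : Set V2} {th : ℕ → ℝ} {p : ℕ → V2} (h : Hyp Q th p) : False := by
  classical
  set R : ℕ → ℕ := fun i => Nat.findGreatest (fun k => th (i + k) < th i + Real.pi) 9 with hRdef
  have hR9 : ∀ i, R i ≤ 9 := fun i => Nat.findGreatest_le _
  have hspec : ∀ i k, k ≤ 9 → (k ≤ R i ↔ th (i + k) < th i + Real.pi) := by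
    intro i k hk
    constructor
    · intro h1
      have h2 : th (i + R i) < th i + Real.pi := by
        have := @Nat.findGreatest_spec 0 (fun k => th (i + k) < th i + Real.pi) _ 9 (by omega)
          (by simp [Real.pi_pos])
        exact this
      have := h.ch.mono.monotone (show i + k ≤ i + R i by omega)
      linarith
    · intro h1
      exact Nat.le_findGreatest hk h1
  have hper : ∀ i, R (i + 10) = R i := by
    intro i
    have : ∀ k, k ≤ 9 → (k ≤ R (i + 10) ↔ k ≤ R i) := by
      intro k hk
      rw [hspec _ k hk, hspec _ k hk, show i + 10 + k = (i + k) + 10 by omega, h.ch.per, h.ch.per]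
      constructor <;> intro h1 <;> linarith
    have a := (this (R (i + 10)) (hR9 _)).1 le_rfl
    have b := (this (R i) (hR9 _)).2 le_rfl
    omega
  have hmod : ∀ i, R (i % 10) = R i := by
    intro i
    induction i using Nat.strong_induction_on with
    | _ i ih =>
      rcases lt_or_ge i 10 with h1 | h1
      · rw [Nat.mod_eq_of_lt h1]
      · have h2 := ih (i - 10) (by omega)
        have h3 := hper (i - 10)
        rw [show i - 10 + 10 = i by omega] at h3
        rw [show i % 10 = (i - 10) % 10 by omega, h2, h3]
  have hc : ∀ i j, i < j → j < i + 10 → (j - i ≤ R i ↔ ¬ 10 + i - j ≤ R j) := by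
    intro i j h1 h2
    rw [hspec i (j - i) (by omega), hspec j (10 + i - j) (by omega),
      show i + (j - i) = j by omega, show j + (10 + i - j) = i + 10 by omega, h.ch.per]
    constructor
    · intro h3 h4; linarith
    · intro h3
      have h4 := h.ch.gen i j h1 h2
      rcases lt_trichotomy (th j) (th i + Real.pi) with h5 | h5 | h5
      · exact h5
      · exact absurd h5 h4
      · exact absurd (by linarith) h3
  obtain ⟨m, hm⟩ := srch_sound reps R hR9 hc 10 le_rfl (by simpa [cover] using hcov)
  refine H _ hm Q _ _ (hyp_shift h m) ?_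
  intro i j h1 h2
  have e : (rot ((List.range 10).map R) m).getD (i % 10) 0 = R (i + m) := by
    rw [rot, getD_map_range _ _ _ (Nat.mod_lt _ (by omega)),
      getD_map_range _ _ _ (Nat.mod_lt _ (by omega)), hmod]
    rw [← hmod (i % 10 + m), ← hmod (i + m)]
    congr 1
    omega
  rw [e, hspec (i + m) (j - i) (by omega), show i + m + (j - i) = j + m by omega]

theorem red (reps : List (List ℕ)) (hcov : cover reps = true)
    (H : ∀ r ∈ reps, ∀ (Q : Set V2) (th : ℕ → ℝ) (p : ℕ → V2),
      Pool.Agent.H265.TW.Dat Q th p → Fits r th → False) : S_planarG := by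
  intro Q h1 h2 h3 h4 th p h5
  refine redH reps hcov (fun r hr Q th p hh hf => H r hr Q th p ⟨hh.cvx, hh.cpt, hh.int, hh.cen, hh.ch⟩ hf)
    (Q := Q) (th := th) (p := p) ⟨h1, h2, h3, h4, h5⟩

end Pool.Agent.H54.TW
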